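import Pool.Agent.helper61.Y2.Spec

set_option autoImplicit false

/-!
# Y2, row E5
-/

namespace H61.Y2

open H61.Yorioka Cardinal

theorem E5 : E5_stmt := by
  intro F A hA k
  obtain ⟨m, hm⟩ := hA.wid (2 * k)
  refine ⟨m, ?_⟩
  intro j hj
  have h1 := hm j hj
  show k * Nat.clog 2 (A j).card ≤ 2 ^ j
  generalize (A j).card = c at h1 ⊢
  rcases Nat.lt_or_ge 1 c with hc | hc
  · have h2 : 2 ^ (Nat.clog 2 c - 1) < c := by
      have := Nat.pow_pred_clog_lt_self (b := 2) (by norm_num) hc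
      simpa using this
    obtain ⟨p, hp⟩ : ∃ p, p = max 1 (Nat.clog 2 c - 1) := ⟨_, rfl⟩
    have h3 : 2 ^ p ≤ c := by
      rcases le_total 1 (Nat.clog 2 c - 1) with h | h
      · rw [hp, max_eq_right h]; exact h2.le
      · rw [hp, max_eq_left h, pow_one]; exact hc
    have h4 : Nat.clog 2 c ≤ 2 * p := by
      have h5 : 1 ≤ p := hp ▸ le_max_left _ _
      have h6 : Nat.clog 2 c - 1 ≤ p := hp ▸ le_max_right _ _
      omega
    have h5 : 2 ^ (p * (2 * k)) ≤ 2 ^ (2 ^ j) := by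
      rw [pow_mul]
      exact (Nat.pow_le_pow_left h3 _).trans h1
    have h6 : p * (2 * k) ≤ 2 ^ j := (Nat.pow_le_pow_iff_right (by norm_num)).1 h5
    calc k * Nat.clog 2 c ≤ k * (2 * p) := Nat.mul_le_mul_left _ h4
      _ = p * (2 * k) := by ring
      _ ≤ 2 ^ j := h6
  · have h2 : Nat.clog 2 c = 0 := Nat.clog_of_right_le_one hc 2
    rw [h2]
    simp

end H61.Y2
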