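import Pool.Agent.helper61.Y2.Spec

set_option autoImplicit false

/-!
# Y2, row GV
-/

namespace H61.Y2

open H61.Yorioka Cardinal

theorem GV_pow (n : ℕ) (hn : 4 ≤ n) : 8 * n ^ 2 + 16 ≤ 8 ^ n := by
  induction n, hn using Nat.le_induction with
  | base => norm_num
  | succ n hn ih =>
    have h1 : 8 ^ (n + 1) = 8 ^ n * 8 := pow_succ 8 n
    rw [h1]
    nlinarith

theorem GV_add (f : ℕ → ℕ) (hf : StrictMono f) (n i : ℕ) : f n + i ≤ f (n + i) := by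
  induction i with
  | zero => simp
  | succ i ih =>
    have h2 : f (n + i) < f (n + i + 1) := hf (Nat.lt_succ_self (n + i))
    show f n + (i + 1) ≤ f (n + i + 1)
    omega

theorem GV (hTLS : TLS_stmt) : GV_stmt := by
  intro f hf T hT
  obtain ⟨N₁, hN₁⟩ := hTLS f hf T hT
  refine ⟨max 4 N₁, ?_⟩
  intro N hN v hv hlen F hF
  have h4 : 4 ≤ N := (le_max_left _ _).trans hN
  have h5 : N ≤ N ^ 2 := by nlinarith
  have h6 : N₁ ≤ N ^ 2 := ((le_max_right _ _).trans hN).trans h5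
  have h7 := hN₁ (N ^ 2) h6 F (fun t ht => ⟨(hF t ht).1, hlen t (hF t ht).1 (hF t ht).2.1 (hF t ht).2.2⟩)
  have h8 : f N + (N ^ 2 - N) ≤ f (N ^ 2) := by
    have := GV_add f hf N (N ^ 2 - N)
    rwa [Nat.add_sub_cancel' h5] at this
  have h9 : (1 / 2 : ℝ) ^ f (N ^ 2) ≤ (1 / 2) ^ (f N + (N ^ 2 - N)) :=
    pow_le_pow_of_le_one (by norm_num) (by norm_num) h8
  have h10 : 4 * (2 * ((N ^ 2 : ℕ) : ℝ) + 4) ≤ 2 ^ (N ^ 2 - N) := by
    have g1 : 8 * N ^ 2 + 16 ≤ 2 ^ (N ^ 2 - N) := by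
      refine (GV_pow N h4).trans ?_
      have : (8 : ℕ) ^ N = 2 ^ (3 * N) := by rw [pow_mul]; norm_num
      rw [this]
      apply Nat.pow_le_pow_right (by norm_num)
      have : 4 * N ≤ N ^ 2 := by nlinarith
      omega
    have g2 : ((8 * N ^ 2 + 16 : ℕ) : ℝ) ≤ ((2 ^ (N ^ 2 - N) : ℕ) : ℝ) := by exact_mod_cast g1
    push_cast at g2 ⊢
    linarith
  rw [hv]
  calc 4 * ∑ t ∈ F, (1 / 2 : ℝ) ^ t.length ≤ 4 * ((2 * ((N ^ 2 : ℕ) : ℝ) + 4) * (1 / 2) ^ f (N ^ 2)) := by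
        linarith
    _ ≤ 4 * ((2 * ((N ^ 2 : ℕ) : ℝ) + 4) * (1 / 2) ^ (f N + (N ^ 2 - N))) := by gcongr
    _ = (4 * (2 * ((N ^ 2 : ℕ) : ℝ) + 4)) * (1 / 2) ^ (N ^ 2 - N) * (1 / 2) ^ f N := by rw [pow_add]; ring
    _ ≤ 2 ^ (N ^ 2 - N) * (1 / 2) ^ (N ^ 2 - N) * (1 / 2) ^ f N := by gcongr
    _ = (1 / 2) ^ f N := by
        rw [← mul_pow]
        norm_num

end H61.Y2
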