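import Pool.Agent.helper61.Y2.Spec

set_option autoImplicit false

/-!
# Y2, row MON
-/

namespace H61.Y2

open H61.Yorioka Cardinal

theorem MON (hL2 : L2_stmt) (hSQT : SQT_stmt) : MON_stmt := by
  classical
  rintro f g hf hg ⟨m₀, hm₀⟩
  have hKK : ∀ j, j ≤ KK j := by
    intro j
    have h1 : j < 2 ^ j := Nat.lt_two_pow_self
    have h2 : 2 ^ j < 2 ^ 2 ^ j := Nat.lt_two_pow_self
    show j ≤ 2 ^ 2 ^ j
    omega
  obtain ⟨a, ha⟩ : ∃ a : (ℕ → Finset (List Bool)) → ℕ → Finset (List Bool), a = fun A j =>
    if g (KK j) ≤ f (KK j) then (A j).image (fun s => s ++ List.replicate (f (KK j) - g (KK j)) false)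
      else ∅ := ⟨_, rfl⟩
  have haS : ∀ A, Sl g A → Sl f (a A) := by
    intro A hA
    constructor
    · intro j s hs
      rw [ha] at hs
      simp only at hs
      split_ifs at hs with h
      · rw [Finset.mem_image] at hs
        obtain ⟨t, ht, rfl⟩ := hs
        rw [List.length_append, List.length_replicate, hA.len j t ht]
        omega
      · exact absurd hs (Finset.notMem_empty _)
    · intro k
      obtain ⟨m, hm⟩ := hA.wid k
      refine ⟨m, fun j hj => ?_⟩
      refine le_trans ?_ (hm j hj)
      apply Nat.pow_le_pow_left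
      rw [ha]
      simp only
      split_ifs with h
      · exact Finset.card_image_le
      · simp
  refine hSQT _ _ _ _ (yoriokaIdeal f) (rS g) (rS f) 3 0 a {A | Sl g A} {A | Sl f A} (hL2 f hf)
    (fun A hA => haS A hA) ?_
  intro S
  refine ⟨fun j => if g (KK j) ≤ f (KK j) then (S j).image (fun s => s.take (g (KK j))) else ∅, ?_⟩
  rintro A ⟨hA, hS, m, hm⟩
  refine ⟨⟨?_, ?_⟩, max m m₀, ?_⟩
  · intro j s hs
    split_ifs at hs with h
    · rw [Finset.mem_image] at hs
      obtain ⟨t, ht, rfl⟩ := hs
      rw [List.length_take, hS.len j t ht]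
      omega
    · exact absurd hs (Finset.notMem_empty _)
  · intro k
    obtain ⟨m', hm'⟩ := hS.wid k
    refine ⟨m', fun j hj => ?_⟩
    refine le_trans ?_ (hm' j hj)
    apply Nat.pow_le_pow_left
    split_ifs with h
    · exact Finset.card_image_le
    · simp
  · intro j hj s hs
    have h1 : g (KK j) ≤ f (KK j) := hm₀ _ (((le_max_right _ _).trans hj).trans (hKK j))
    have h2 := hm j ((le_max_left _ _).trans hj)
    simp only
    rw [if_pos h1, Finset.mem_image]
    refine ⟨s ++ List.replicate (f (KK j) - g (KK j)) false, h2 ?_, ?_⟩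
    · rw [ha]
      simp only
      rw [if_pos h1, Finset.mem_image]
      exact ⟨s, hs, rfl⟩
    · exact List.take_left' (hA.len j s hs)

end H61.Y2
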