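import Pool.Agent.helper61.Y2.Spec

set_option autoImplicit false

/-!
# Y2, row SQE
-/

namespace H61.Y2

open H61.Yorioka Cardinal

theorem SQE : SQE_stmt := by
  intro X Y _ J r k
  induction k with
  | zero => exact ⟨Classical.arbitrary Y, fun x hx => absurd hx (Set.notMem_empty x)⟩
  | succ k ih =>
    refine ⟨fun _ => ∅, fun x hx => absurd hx (Set.notMem_empty x), fun Z _ => ?_⟩
    have : {x | x ∈ (∅ : Set X) ∧ (∅ : Set (ℕ → Bool)) ⊆ Z} = ∅ := by
      ext x
      simp
    rw [this]
    exact ih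

end H61.Y2
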