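import Pool.Agent.helper61.Y2.Spec

set_option autoImplicit false

/-!
# Y2, row SQM
-/

namespace H61.Y2

open H61.Yorioka Cardinal

theorem SQM : SQM_stmt := by
  intro X Y J r k
  induction k with
  | zero =>
    rintro P P' ⟨y, hy⟩ hs
    exact ⟨y, fun x hx => hy x (hs hx)⟩
  | succ k ih =>
    rintro P P' ⟨φ, h1, h2⟩ hs
    exact ⟨φ, fun x hx => h1 x (hs hx), fun Z hZ => ih _ _ (h2 Z hZ) (fun x hx => ⟨hs hx.1, hx.2⟩)⟩

end H61.Y2
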