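import Pool.Agent.helper61.Y2.Spec

set_option autoImplicit false

/-!
# Y2, row SQT
-/

namespace H61.Y2

open H61.Yorioka Cardinal

theorem SQT (hSQM : SQM_stmt) : SQT_stmt := by
  intro X Y X' Y' J r r' k l a
  induction k with
  | zero =>
    rintro P P' ⟨y', hy'⟩ ha h
    rw [Nat.zero_add]
    exact hSQM _ _ _ _ _ _ _ (h y') (fun x hx => ⟨hx, hy' _ (ha x hx)⟩)
  | succ k ih =>
    rintro P P' ⟨φ, h1, h2⟩ ha h
    rw [Nat.add_right_comm]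
    refine ⟨fun x => φ (a x), fun x hx => h1 _ (ha x hx), fun Z hZ => ?_⟩
    apply ih {x | x ∈ P ∧ φ (a x) ⊆ Z} {x' | x' ∈ P' ∧ φ x' ⊆ Z} (h2 Z hZ) (fun x hx => ⟨ha x hx.1, hx.2⟩)
    intro y'
    exact hSQM _ _ _ _ _ _ _ (h y') (fun x hx => ⟨hx.1.1, hx.2⟩)

end H61.Y2
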