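import Pool.Agent.helper61.Y2.Spec

set_option autoImplicit false

/-!
# Y2, row TOW
-/

namespace H61.Y2

open H61.Yorioka Cardinal

theorem TOW_mono (h : ℕ) : StrictMono ((fun x : ℕ => 2 ^ x)^[h]) :=
  StrictMono.iterate (fun _ _ hab => Nat.pow_lt_pow_right (by norm_num) hab) h

theorem TOW (hPA : PA_stmt) (hPB : PB_stmt) : TOW_stmt := by
  rintro f hf ⟨h, m, hm⟩
  have key : ∀ h : ℕ, add (yoriokaIdeal ((fun x : ℕ => 2 ^ x)^[h])) = add (yoriokaIdeal id) ∧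
      cof (yoriokaIdeal ((fun x : ℕ => 2 ^ x)^[h])) = cof (yoriokaIdeal id) := by
    intro h
    induction h with
    | zero => exact ⟨rfl, rfl⟩
    | succ h ih =>
      have h1 : (fun x : ℕ => 2 ^ x)^[h + 1] = fun n => 2 ^ ((fun x : ℕ => 2 ^ x)^[h] n) := by
        rw [Function.iterate_succ']
        rfl
      obtain ⟨h2, h3⟩ := hPB _ (TOW_mono h)
      rw [h1, h2, h3]
      exact ih
  obtain ⟨a1, a2⟩ := hPA f id hf strictMono_id ⟨0, fun n _ => hf.id_le n⟩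
  obtain ⟨b1, b2⟩ := hPA _ f (TOW_mono h) hf ⟨m, hm⟩
  obtain ⟨c1, c2⟩ := key h
  rw [c1] at b1
  rw [c2] at b2
  exact ⟨le_antisymm a1 b1, le_antisymm b2 a2⟩

end H61.Y2
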