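import Pool.Agent.helper61.Y2.Spec

set_option autoImplicit false

/-!
# Y2, row X2
-/

namespace H61.Y2

open H61.Yorioka Cardinal

theorem X2 : X2_stmt := by
  intro f hf
  have hK : ∀ j, 2 ^ j < f (KK j) := by
    intro j
    have h1 : KK j ≤ f (KK j) := hf.id_le _
    have h2 : 2 ^ j < KK j := Nat.pow_lt_pow_right (by norm_num) Nat.lt_two_pow_self
    omega
  have hii : ∀ j, j < ii f j := by
    intro j
    unfold ii
    by_contra h
    push Not at h
    have h1 := Nat.le_pow_clog (b := 2) (by norm_num) (f (KK j))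
    have h2 : 2 ^ Nat.clog 2 (f (KK j)) ≤ 2 ^ j := Nat.pow_le_pow_right (by norm_num) h
    have h3 := hK j
    omega
  refine ⟨hii, ?_⟩
  rintro C ⟨m, hm⟩
  refine ⟨m, ?_⟩
  intro j hj
  have h1 := hii j
  have h2 : 1 < f (KK j) := lt_of_le_of_lt Nat.one_le_two_pow (hK j)
  have h3 : 2 ^ (ii f j - 1) < f (KK j) := by
    have := Nat.pow_pred_clog_lt_self (b := 2) (by norm_num) h2
    show 2 ^ (Nat.clog 2 (f (KK j)) - 1) < f (KK j)
    simpa using this
  have h4 := hm (ii f j + 1) (by omega)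
  have h5 : KK (ii f j + 1) = (2 ^ 2 ^ (ii f j - 1)) ^ 4 := by
    unfold KK
    rw [← pow_mul]
    congr 1
    have : ii f j + 1 = (ii f j - 1) + 2 := by omega
    rw [this, pow_add]
    norm_num
  rw [h5] at h4
  have h6 : C (ii f j + 1) ≤ 2 ^ 2 ^ (ii f j - 1) := (Nat.pow_le_pow_iff_left (by norm_num)).1 h4
  exact h6.trans (Nat.pow_le_pow_right (by norm_num) h3.le)

end H61.Y2
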